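import Mathlib

/-!
# Moving discs (steps 2 and 3 of MP_110de3)

`Retr E` packages an open set `U` of a finite dimensional complex space, a holomorphic
retraction `r` of `U` onto the closed set `M` and a continuous homogeneous function `F x u`
which is positive on `TM`.  `Rch D p` packages the relation: there is a path of length `L`.
-/

set_option autoImplicit false

open Set Metric Filter Topology

namespace Pool.Agent.H50.KB

structure Retr (E : Type*) [NormedAddCommGroup E] [NormedSpace ℂ E] where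
  U : Set E
  M : Set E
  r : E → E
  F : E → E → ℝ
  isOpen_U : IsOpen U
  anal : AnalyticOnNhd ℂ r U
  sub : M ⊆ U
  maps : ∀ x ∈ U, r x ∈ M
  fix : ∀ x ∈ M, r x = x
  closed : IsClosed M
  contF : ContinuousOn (fun q : E × E => F q.1 q.2) (U ×ˢ univ)
  homog : ∀ x ∈ U, ∀ (c : ℂ) (u : E), F x (c • u) = ‖c‖ * F x u
  pos : ∀ x ∈ M, ∀ u, fderiv ℂ r x u = u → u ≠ 0 → 0 < F x u

variable {E : Type*} [NormedAddCommGroup E] [NormedSpace ℂ E]

theorem Retr.contDr [FiniteDimensional ℂ E] (D : Retr E) : ContinuousOn (fderiv ℂ D.r) D.U :=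
  have : CompleteSpace E := FiniteDimensional.complete ℂ E
  fun x hx => (D.anal x hx).fderiv.continuousAt.continuousWithinAt

/-- On a compact part of `M`, `F` dominates the norm on tangent vectors. -/
theorem Retr.lower [FiniteDimensional ℂ E] (D : Retr E) {K : Set E} (hK : IsCompact K)
    (hKM : K ⊆ D.M) : ∃ c > 0, ∀ x ∈ K, ∀ u, fderiv ℂ D.r x u = u → c * ‖u‖ ≤ D.F x u := by
  have : ProperSpace E := FiniteDimensional.proper ℂ E
  set S : Set (E × E) := {q | q ∈ K ×ˢ sphere (0 : E) 1 ∧ fderiv ℂ D.r q.1 q.2 = q.2} with hS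
  have hcompact : IsCompact S := by
    have h1 : IsCompact (K ×ˢ sphere (0 : E) 1) := hK.prod (isCompact_sphere 0 1)
    refine h1.of_isClosed_subset ?_ (fun q hq => hq.1)
    have hcl : IsClosed (K ×ˢ sphere (0 : E) 1) := h1.isClosed
    have hcont : ContinuousOn (fun q : E × E => fderiv ℂ D.r q.1 q.2 - q.2)
        (K ×ˢ sphere (0 : E) 1) := by
      have h2 : ContinuousOn (fun q : E × E => fderiv ℂ D.r q.1) (K ×ˢ sphere (0 : E) 1) :=
        D.contDr.comp continuousOn_fst (fun q hq => D.sub (hKM hq.1))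
      exact (h2.clm_apply continuousOn_snd).sub continuousOn_snd
    have := hcont.preimage_isClosed_of_isClosed hcl (isClosed_singleton (x := (0 : E)))
    convert this using 1
    ext q
    simp only [hS, mem_ofPred_eq, mem_inter_iff, mem_preimage, mem_singleton_iff, sub_eq_zero]
  have hF : ContinuousOn (fun q : E × E => D.F q.1 q.2) S :=
    D.contF.mono (fun q hq => ⟨D.sub (hKM hq.1.1), mem_univ _⟩)
  have hunit : ∃ c > 0, ∀ q ∈ S, c ≤ D.F q.1 q.2 := by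
    rcases S.eq_empty_or_nonempty with he | hne
    · exact ⟨1, one_pos, fun q hq => by simp [he] at hq⟩
    · obtain ⟨q0, hq0, hmin⟩ := hcompact.exists_isMinOn hne hF
      refine ⟨D.F q0.1 q0.2, ?_, fun q hq => hmin hq⟩
      refine D.pos q0.1 (hKM hq0.1.1) q0.2 hq0.2 ?_
      intro h0
      have : ‖q0.2‖ = 1 := by simpa using hq0.1.2
      rw [h0, norm_zero] at this
      exact zero_ne_one this
  obtain ⟨c, hc, hcS⟩ := hunit
  refine ⟨c, hc, fun x hx u hu => ?_⟩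
  have hxU := D.sub (hKM hx)
  rcases eq_or_ne u 0 with rfl | hu0
  · have := D.homog x hxU 0 0
    simp only [zero_smul, norm_zero, zero_mul] at this
    simp [this]
  · have hn : 0 < ‖u‖ := norm_pos_iff.2 hu0
    set w : E := ((‖u‖ : ℂ)⁻¹) • u with hw
    have hwS : (x, w) ∈ S := by
      refine ⟨⟨hx, ?_⟩, ?_⟩
      · simp only [mem_sphere_iff_norm, sub_zero, hw, norm_smul, norm_inv, Complex.norm_real,
          Real.norm_eq_abs, abs_of_pos hn]
        exact inv_mul_cancel₀ hn.ne'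
      · simp only [hw, map_smul, hu]
    have h1 := hcS _ hwS
    have h2 : D.F x w = ‖u‖⁻¹ * D.F x u := by
      rw [hw, D.homog x hxU]
      simp only [norm_inv, Complex.norm_real, Real.norm_eq_abs, abs_of_pos hn]
    simp only [h2] at h1
    have h3 : c * ‖u‖ ≤ (‖u‖⁻¹ * D.F x u) * ‖u‖ := mul_le_mul_of_nonneg_right h1 hn.le
    calc c * ‖u‖ ≤ (‖u‖⁻¹ * D.F x u) * ‖u‖ := h3
      _ = D.F x u := by field_simp

/-- Uniform continuity of `F` near a compact part of `M`. -/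
theorem Retr.unif [FiniteDimensional ℂ E] (D : Retr E) {K : Set E} (hK : IsCompact K)
    (hKM : K ⊆ D.M) (B : ℝ) {ε : ℝ} (hε : 0 < ε) :
    ∃ δ > 0, ∀ x ∈ K, ∀ u : E, ‖u‖ ≤ B → ∀ s : ℝ, 0 ≤ s → s ≤ δ →
      x + (s : ℂ) • u ∈ D.U ∧ D.F (x + (s : ℂ) • u) u ≤ D.F x u + ε := by
  have : ProperSpace E := FiniteDimensional.proper ℂ E
  set O : Set ((E × E) × ℝ) :=
    {q | q.1.1 ∈ D.U ∧ q.1.1 + (q.2 : ℂ) • q.1.2 ∈ D.U} with hO
  have hadd : Continuous (fun q : (E × E) × ℝ => q.1.1 + (q.2 : ℂ) • q.1.2) := by fun_prop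
  have hOopen : IsOpen O :=
    (D.isOpen_U.preimage (continuous_fst.comp continuous_fst)).inter (D.isOpen_U.preimage hadd)
  set Φ : (E × E) × ℝ → ℝ :=
    fun q => D.F (q.1.1 + (q.2 : ℂ) • q.1.2) q.1.2 - D.F q.1.1 q.1.2 with hΦ
  have hΦc : ContinuousOn Φ O := by
    refine ContinuousOn.sub ?_ ?_
    · exact D.contF.comp (f := fun q : (E × E) × ℝ => (q.1.1 + (q.2 : ℂ) • q.1.2, q.1.2))
        (by fun_prop) (fun q hq => ⟨hq.2, mem_univ _⟩)
    · exact D.contF.comp (f := fun q : (E × E) × ℝ => (q.1.1, q.1.2))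
        (by fun_prop) (fun q hq => ⟨hq.1, mem_univ _⟩)
  set W : Set ((E × E) × ℝ) := O ∩ Φ ⁻¹' (Iio ε) with hW
  have hWopen : IsOpen W := hΦc.isOpen_inter_preimage hOopen isOpen_Iio
  have hsub : (K ×ˢ closedBall (0 : E) B) ×ˢ ({0} : Set ℝ) ⊆ W := by
    rintro ⟨⟨x, u⟩, s⟩ ⟨⟨hx, _⟩, hs⟩
    simp only [mem_singleton_iff] at hs
    subst hs
    have hxU := D.sub (hKM hx)
    refine ⟨⟨hxU, ?_⟩, ?_⟩
    · simpa using hxU
    · simp [hΦ, hε]
  obtain ⟨A, V, hA, hV, hKA, h0V, hAV⟩ := generalized_tube_lemma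
    (hK.prod (isCompact_closedBall (0 : E) B)) (isCompact_singleton (x := (0 : ℝ))) hWopen hsub
  obtain ⟨δ, hδ, hball⟩ := Metric.isOpen_iff.1 hV 0 (h0V rfl)
  refine ⟨δ / 2, by positivity, fun x hx u hu s hs0 hs => ?_⟩
  have hmem : ((x, u), s) ∈ W := by
    refine hAV ⟨hKA ⟨hx, ?_⟩, hball ?_⟩
    · simpa using hu
    · simp only [mem_ball, dist_zero_right, Real.norm_eq_abs, abs_of_nonneg hs0]
      linarith
  refine ⟨hmem.1.2, ?_⟩
  have := hmem.2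
  simp only [hΦ, mem_preimage, mem_Iio] at this
  linarith

/-- The relation: there is a path from `x` to `y` of length `L`. -/
structure Rch (D : Retr E) (p : E) where
  R : E → E → ℝ → Prop
  refl : R p p 0
  trans : ∀ x y z L L', R x y L → R y z L' → R x z (L + L')
  seg : ∀ (x Y : E) (C : ℝ), (∀ t ∈ Icc (0 : ℝ) 1, x + (t : ℂ) • Y ∈ D.U) →
    (∀ t ∈ Icc (0 : ℝ) 1, D.F (x + (t : ℂ) • Y) Y ≤ C) → ∃ L ≤ C, R (D.r x) (D.r (x + Y)) L
  bdd : ∀ C : ℝ, ∃ B : ℝ, ∀ x ∈ D.M, (∃ L ≤ C, R p x L) → ‖x‖ ≤ B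

/-- Holomorphic discs in `M` (holomorphic near the closed unit disc). -/
def IsDisc (D : Retr E) (f : ℂ → E) : Prop :=
  AnalyticOnNhd ℂ f (closedBall 0 1) ∧ ∀ z ∈ closedBall (0 : ℂ) 1, f z ∈ D.M

/-- Composition with the retraction. -/
theorem Retr.analyticAt_comp (D : Retr E) {h : ℂ → E} {z : ℂ}
    (hh : AnalyticAt ℂ h z) (hz : h z ∈ D.U) : AnalyticAt ℂ (fun w => D.r (h w)) z :=
  (D.anal _ hz).comp hh

/-- The path `t ↦ r (x + t δ u)`. -/
theorem Rch.reach_r (D : Retr E) {p : E} (P : Rch D p) {x u : E}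
    (hx : x ∈ D.M) {δ A : ℝ} (hδ : 0 ≤ δ)
    (h : ∀ s : ℝ, 0 ≤ s → s ≤ δ → x + (s : ℂ) • u ∈ D.U ∧ D.F (x + (s : ℂ) • u) u ≤ A) :
    ∃ L ≤ δ * A, P.R x (D.r (x + (δ : ℂ) • u)) L := by
  have hts : ∀ t ∈ Icc (0 : ℝ) 1, 0 ≤ t * δ ∧ t * δ ≤ δ := fun t ht =>
    ⟨mul_nonneg ht.1 hδ, by nlinarith [ht.2]⟩
  have hre : ∀ t : ℝ, x + (t : ℂ) • ((δ : ℂ) • u) = x + ((t * δ : ℝ) : ℂ) • u := by
    intro t
    rw [smul_smul]
    push_cast
    rfl
  have key := P.seg x ((δ : ℂ) • u) (δ * A) ?_ ?_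
  · rwa [D.fix x hx] at key
  · intro t ht
    rw [hre]
    exact (h _ (hts t ht).1 (hts t ht).2).1
  · intro t ht
    rw [hre]
    obtain ⟨hU, hF⟩ := h _ (hts t ht).1 (hts t ht).2
    rw [D.homog _ hU]
    simp only [Complex.norm_real, Real.norm_eq_abs, abs_of_nonneg hδ]
    exact mul_le_mul_of_nonneg_left hF hδ

/-- Maximum principle. -/
theorem norm_le_of_circle {f : ℂ → E} (hf : AnalyticOnNhd ℂ f (closedBall 0 1)) {C : ℝ}
    (hC : ∀ z : ℂ, ‖z‖ = 1 → ‖f z‖ ≤ C) : ∀ z ∈ closedBall (0 : ℂ) 1, ‖f z‖ ≤ C := by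
  intro z hz
  have h1 : DiffContOnCl ℂ f (ball (0 : ℂ) 1) := by
    refine DifferentiableOn.diffContOnCl ?_
    rw [closure_ball (0 : ℂ) one_ne_zero]
    exact hf.differentiableOn
  refine Complex.norm_le_of_forall_mem_frontier_norm_le isBounded_ball h1 (fun w hw => ?_) ?_
  · rw [frontier_ball (0 : ℂ) one_ne_zero] at hw
    exact hC w (by simpa using hw)
  · rwa [closure_ball (0 : ℂ) one_ne_zero]

/-- Step 2: moving a disc. -/
theorem Retr.step (D : Retr E) {p : E} (P : Rch D p)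
    {K : Set E} {c B δ₀ ε A ρ : ℝ} (hc : 0 < c)
    (hlow : ∀ x ∈ K, ∀ u, fderiv ℂ D.r x u = u → c * ‖u‖ ≤ D.F x u)
    (hunif : ∀ x ∈ K, ∀ u : E, ‖u‖ ≤ B → ∀ s : ℝ, 0 ≤ s → s ≤ δ₀ →
      x + (s : ℂ) • u ∈ D.U ∧ D.F (x + (s : ℂ) • u) u ≤ D.F x u + ε)
    {f : ℂ → E} (hf : IsDisc D f) (hfK : ∀ z ∈ closedBall (0 : ℂ) 1, f z ∈ K) (hfp : f 0 = p)
    (hρ : ∀ z : ℂ, ‖z‖ = 1 → ∃ L ≤ ρ, P.R p (f z) L)
    {η : ℂ → E} (hη : AnalyticOnNhd ℂ η (closedBall 0 1))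
    (hηT : ∀ z ∈ closedBall (0 : ℂ) 1, fderiv ℂ D.r (f z) (η z) = η z)
    (hη0 : η 0 = deriv f 0) (hηA : ∀ z : ℂ, ‖z‖ = 1 → D.F (f z) (η z) ≤ A)
    (hAB : A ≤ c * B) {δ : ℝ} (hδ : 0 ≤ δ) (hδ₀ : δ ≤ δ₀) :
    ∃ f₁ : ℂ → E, IsDisc D f₁ ∧ f₁ 0 = p ∧ deriv f₁ 0 = ((1 + δ : ℝ) : ℂ) • deriv f 0 ∧
      ∀ z : ℂ, ‖z‖ = 1 → ∃ L ≤ ρ + δ * (A + ε), P.R p (f₁ z) L := by
  have hcl : ∀ z : ℂ, ‖z‖ = 1 → z ∈ closedBall (0 : ℂ) 1 := fun z hz => by simp [hz]
  have hηB : ∀ z ∈ closedBall (0 : ℂ) 1, ‖η z‖ ≤ B := by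
    refine norm_le_of_circle hη (fun z hz => ?_)
    have h1 := hlow _ (hfK z (hcl z hz)) _ (hηT z (hcl z hz))
    have h2 : c * ‖η z‖ ≤ c * B := (h1.trans (hηA z hz)).trans hAB
    exact le_of_mul_le_mul_left h2 hc
  have hzη : ∀ z ∈ closedBall (0 : ℂ) 1, ‖z • η z‖ ≤ B := by
    intro z hz
    have hz1 : ‖z‖ ≤ 1 := by simpa using hz
    calc ‖z • η z‖ = ‖z‖ * ‖η z‖ := norm_smul _ _
      _ ≤ 1 * ‖η z‖ := mul_le_mul_of_nonneg_right hz1 (norm_nonneg _)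
      _ = ‖η z‖ := one_mul _
      _ ≤ B := hηB z hz
  set h : ℂ → E := fun z => f z + (δ : ℂ) • (z • η z) with hh
  have hhan : AnalyticOnNhd ℂ h (closedBall 0 1) := fun z hz =>
    (hf.1 z hz).add (analyticAt_const.smul (analyticAt_id.smul (hη z hz)))
  have hhU : ∀ z ∈ closedBall (0 : ℂ) 1, h z ∈ D.U := fun z hz =>
    (hunif _ (hfK z hz) _ (hzη z hz) δ hδ hδ₀).1
  have h0cl : (0 : ℂ) ∈ closedBall (0 : ℂ) 1 := by simp
  have hh0 : h 0 = p := by simp [hh, hfp]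
  refine ⟨fun z => D.r (h z), ⟨fun z hz => D.analyticAt_comp (hhan z hz) (hhU z hz),
    fun z hz => D.maps _ (hhU z hz)⟩, ?_, ?_, ?_⟩
  · have hpM : p ∈ D.M := hfp ▸ hf.2 0 h0cl
    simp only [hh0]
    exact D.fix _ hpM
  · have hd1 : HasDerivAt f (deriv f 0) 0 := (hf.1 0 h0cl).differentiableAt.hasDerivAt
    have hd2 : HasDerivAt η (deriv η 0) 0 := (hη 0 h0cl).differentiableAt.hasDerivAt
    have hd3 : HasDerivAt (fun z : ℂ => z • η z) (deriv f 0) 0 := by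
      have := (hasDerivAt_id' (0 : ℂ)).fun_smul hd2
      simpa [hη0] using this
    have hd4 : HasDerivAt h (((1 + δ : ℝ) : ℂ) • deriv f 0) 0 := by
      have := hd1.fun_add (hd3.fun_const_smul (δ : ℂ))
      have h5 : ((1 + δ : ℝ) : ℂ) • deriv f 0 = deriv f 0 + (δ : ℂ) • deriv f 0 := by
        push_cast
        rw [add_smul, one_smul]
      rw [h5]
      exact this
    have hr : HasFDerivAt D.r (fderiv ℂ D.r (h 0)) (h 0) :=
      (D.anal _ (hhU 0 h0cl)).differentiableAt.hasFDerivAt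
    have hd5 := hr.comp_hasDerivAt (0 : ℂ) hd4
    have hT : fderiv ℂ D.r (h 0) (((1 + δ : ℝ) : ℂ) • deriv f 0)
        = ((1 + δ : ℝ) : ℂ) • deriv f 0 := by
      rw [map_smul, hh0, ← hfp, ← hη0, hηT 0 h0cl]
    rw [hT] at hd5
    exact hd5.deriv
  · intro z hz
    have hzc := hcl z hz
    have h1 : ∃ L ≤ δ * (A + ε), P.R (f z) (D.r (f z + (δ : ℂ) • (z • η z))) L := by
      refine P.reach_r D (hf.2 z hzc) hδ (fun s hs hsδ => ?_)
      obtain ⟨hU, hF⟩ := hunif _ (hfK z hzc) _ (hzη z hzc) s hs (hsδ.trans hδ₀)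
      refine ⟨hU, hF.trans ?_⟩
      rw [D.homog _ (D.sub (hf.2 z hzc)), hz, one_mul]
      linarith [hηA z hz]
    obtain ⟨L1, hL1, hR1⟩ := h1
    obtain ⟨L2, hL2, hR2⟩ := hρ z hz
    exact ⟨L2 + L1, add_le_add hL2 hL1, P.trans _ _ _ _ _ hR2 hR1⟩

/-- Step 1, as a hypothesis: holomorphic sections with boundary values of norm `≤ |w| + ε`. -/
def Key (D : Retr E) : Prop :=
  ∀ f : ℂ → E, IsDisc D f → ∀ w : E, fderiv ℂ D.r (f 0) w = w → ∀ ε : ℝ, 0 < ε →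
    ∃ η : ℂ → E, AnalyticOnNhd ℂ η (closedBall 0 1) ∧
      (∀ z ∈ closedBall (0 : ℂ) 1, fderiv ℂ D.r (f z) (η z) = η z) ∧ η 0 = w ∧
      ∀ z : ℂ, ‖z‖ = 1 → D.F (f z) (η z) ≤ D.F (f 0) w + ε

/-- The small initial disc. -/
theorem Retr.init [FiniteDimensional ℂ E] (D : Retr E) {p : E} (P : Rch D p) (hp : p ∈ D.M)
    {v : E} (hv : fderiv ℂ D.r p v = v) :
    ∃ e₀ > 0, ∀ e : ℝ, 0 ≤ e → e ≤ e₀ → ∃ f : ℂ → E, IsDisc D f ∧ f 0 = p ∧
      deriv f 0 = (e : ℂ) • v ∧ ∀ z : ℂ, ‖z‖ = 1 → ∃ L ≤ e * (D.F p v + 1), P.R p (f z) L := by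
  obtain ⟨e₀, he₀, hun⟩ := D.unif (isCompact_singleton (x := p))
    (singleton_subset_iff.2 hp) ‖v‖ one_pos
  have hpU := D.sub hp
  refine ⟨e₀, he₀, fun e he hee => ?_⟩
  have hzv : ∀ z ∈ closedBall (0 : ℂ) 1, ‖z • v‖ ≤ ‖v‖ := by
    intro z hz
    have hz1 : ‖z‖ ≤ 1 := by simpa using hz
    calc ‖z • v‖ = ‖z‖ * ‖v‖ := norm_smul _ _
      _ ≤ 1 * ‖v‖ := mul_le_mul_of_nonneg_right hz1 (norm_nonneg _)
      _ = ‖v‖ := one_mul _
  set h : ℂ → E := fun z => p + (e : ℂ) • (z • v) with hh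
  have hhU : ∀ z ∈ closedBall (0 : ℂ) 1, h z ∈ D.U := fun z hz =>
    (hun p rfl _ (hzv z hz) e he hee).1
  have hhan : ∀ z : ℂ, AnalyticAt ℂ h z := fun z =>
    analyticAt_const.add (analyticAt_const.smul (analyticAt_id.smul analyticAt_const))
  have h0cl : (0 : ℂ) ∈ closedBall (0 : ℂ) 1 := by simp
  have hh0 : h 0 = p := by simp [hh]
  refine ⟨fun z => D.r (h z), ⟨fun z hz => D.analyticAt_comp (hhan z) (hhU z hz),
    fun z hz => D.maps _ (hhU z hz)⟩, ?_, ?_, ?_⟩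
  · simp only [hh0]
    exact D.fix _ hp
  · have hd4 : HasDerivAt h ((e : ℂ) • v) 0 := by
      have h1 : HasDerivAt (fun z : ℂ => z • v) v 0 := by
        simpa using (hasDerivAt_id' (0 : ℂ)).smul_const v
      exact (h1.fun_const_smul (e : ℂ)).const_add p
    have hr : HasFDerivAt D.r (fderiv ℂ D.r (h 0)) (h 0) :=
      (D.anal _ (hhU 0 h0cl)).differentiableAt.hasFDerivAt
    have hd5 := hr.comp_hasDerivAt (0 : ℂ) hd4
    have hT : fderiv ℂ D.r (h 0) ((e : ℂ) • v) = (e : ℂ) • v := by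
      rw [map_smul, hh0, hv]
    rw [hT] at hd5
    exact hd5.deriv
  · intro z hz
    have hzc : z ∈ closedBall (0 : ℂ) 1 := by simp [hz]
    refine P.reach_r D hp he (fun s hs hse => ?_)
    obtain ⟨hU, hF⟩ := hun p rfl _ (hzv z hzc) s hs (hse.trans hee)
    refine ⟨hU, hF.trans ?_⟩
    rw [D.homog _ hpU, hz, one_mul]

/-- Step 3: every multiple of `v` is the derivative of a holomorphic disc in `M`. -/
theorem Retr.main [FiniteDimensional ℂ E] (D : Retr E) {p : E} (P : Rch D p) (hp : p ∈ D.M)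
    (key : Key D) {v : E} (hv : fderiv ℂ D.r p v = v) {lam : ℝ} (hlam : 0 < lam) :
    ∃ f : ℂ → E, IsDisc D f ∧ f 0 = p ∧ deriv f 0 = (lam : ℂ) • v := by
  have : ProperSpace E := FiniteDimensional.proper ℂ E
  set a : ℝ := D.F p v with ha
  have ha0 : 0 ≤ a := by
    rcases eq_or_ne v 0 with h0 | h0
    · have := D.homog p (D.sub hp) 0 0
      simp only [zero_smul, norm_zero, zero_mul] at this
      rw [ha, h0, this]
    · exact (D.pos p hp v hv h0).le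
  obtain ⟨B₁, hB₁⟩ := P.bdd (lam * a + 1)
  set K : Set E := D.M ∩ closedBall 0 B₁ with hKdef
  have hKc : IsCompact K := (isCompact_closedBall (0 : E) B₁).inter_left D.closed
  have hKM : K ⊆ D.M := inter_subset_left
  obtain ⟨c, hc, hlow⟩ := D.lower hKc hKM
  obtain ⟨e₀, he₀, hinit⟩ := D.init P hp hv
  -- the total time `S`
  set m : ℝ := min e₀ (1 / 2) with hm
  have hm0 : 0 < m := lt_min he₀ (by norm_num)
  set S : ℝ := max (lam / m) 1 with hS
  have hS1 : 1 ≤ S := le_max_right _ _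
  have hS0 : 0 < S := lt_of_lt_of_le one_pos hS1
  have hSm : lam / (1 + S) ≤ m := by
    rw [div_le_iff₀ (by linarith)]
    have h1 : lam / m ≤ S := le_max_left _ _
    rw [div_le_iff₀ hm0] at h1
    nlinarith
  set ε : ℝ := 1 / (4 * S) with hε
  have hε0 : 0 < ε := by positivity
  have hε1 : ε ≤ 1 := by
    rw [hε, div_le_one (by positivity)]
    linarith
  have hSε : S * ε = 1 / 4 := by rw [hε]; field_simp
  set B : ℝ := (lam * a + 1) / c with hB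
  obtain ⟨δ₀, hδ₀, hunif⟩ := D.unif hKc hKM B hε0
  obtain ⟨n, hn⟩ := exists_nat_gt (S / δ₀)
  have hn0 : (0 : ℝ) < n := lt_of_le_of_lt (by positivity) hn
  have hn0' : n ≠ 0 := by
    rintro rfl
    simp at hn0
  set δ : ℝ := S / n with hδ
  have hδ0 : 0 ≤ δ := by positivity
  have hδδ₀ : δ ≤ δ₀ := by
    rw [hδ, div_le_iff₀ hn0]
    rw [div_lt_iff₀ hδ₀] at hn
    linarith
  have hnδ : n * δ = S := by rw [hδ]; field_simp
  have hpow : 1 + S ≤ (1 + δ) ^ n := by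
    have := one_add_mul_le_pow (show (-2 : ℝ) ≤ δ by linarith) n
    rwa [hnδ] at this
  have hpow0 : 0 < (1 + δ) ^ n := lt_of_lt_of_le (by linarith) hpow
  set e : ℝ := lam / (1 + δ) ^ n with he
  have he0 : 0 < e := div_pos hlam hpow0
  have hem : e ≤ m := by
    refine le_trans ?_ hSm
    exact div_le_div_of_nonneg_left hlam.le (by linarith) hpow
  have hee₀ : e ≤ e₀ := hem.trans (min_le_left _ _)
  have he2 : e ≤ 1 / 2 := hem.trans (min_le_right _ _)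
  have hepow : e * (1 + δ) ^ n = lam := by rw [he]; field_simp
  have hbound : ∀ k ≤ n, e * (1 + δ) ^ k ≤ lam := by
    intro k hk
    rw [← hepow]
    exact mul_le_mul_of_nonneg_left (pow_le_pow_right₀ (by linarith) hk) he0.le
  have hclaim : ∀ k ≤ n, ∃ f : ℂ → E, IsDisc D f ∧ f 0 = p ∧
      deriv f 0 = ((e * (1 + δ) ^ k : ℝ) : ℂ) • v ∧
      ∀ z : ℂ, ‖z‖ = 1 → ∃ L ≤ e + e * (1 + δ) ^ k * a + k * δ * (2 * ε), P.R p (f z) L := by
    intro k
    induction k with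
    | zero =>
      intro _
      obtain ⟨f, hf, hf0, hf1, hfL⟩ := hinit e he0.le hee₀
      refine ⟨f, hf, hf0, by simpa using hf1, fun z hz => ?_⟩
      obtain ⟨L, hL, hR⟩ := hfL z hz
      refine ⟨L, hL.trans (le_of_eq ?_), hR⟩
      simp only [pow_zero, Nat.cast_zero]
      ring
    | succ k ih =>
      intro hk
      obtain ⟨f, hf, hf0, hf1, hfL⟩ := ih (by omega)
      have hk' : k ≤ n := by omega
      have hkn : (k : ℝ) ≤ n := by exact_mod_cast hk'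
      have hrad : e + e * (1 + δ) ^ k * a + k * δ * (2 * ε) ≤ lam * a + 1 := by
        have h1 : e * (1 + δ) ^ k * a ≤ lam * a := mul_le_mul_of_nonneg_right (hbound k hk') ha0
        have h2 : k * δ * (2 * ε) ≤ n * δ * (2 * ε) :=
          mul_le_mul_of_nonneg_right (mul_le_mul_of_nonneg_right hkn hδ0) (by positivity)
        rw [hnδ] at h2
        nlinarith
      have hcl : ∀ z : ℂ, ‖z‖ = 1 → z ∈ closedBall (0 : ℂ) 1 := fun z hz => by simp [hz]
      have hfB : ∀ z ∈ closedBall (0 : ℂ) 1, ‖f z‖ ≤ B₁ := by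
        refine norm_le_of_circle hf.1 (fun z hz => ?_)
        obtain ⟨L, hL, hR⟩ := hfL z hz
        exact hB₁ _ (hf.2 z (hcl z hz)) ⟨L, hL.trans hrad, hR⟩
      have hfK : ∀ z ∈ closedBall (0 : ℂ) 1, f z ∈ K := fun z hz =>
        ⟨hf.2 z hz, by simpa using hfB z hz⟩
      have hwT : fderiv ℂ D.r (f 0) (deriv f 0) = deriv f 0 := by
        rw [hf0, hf1, map_smul, hv]
      obtain ⟨η, hη, hηT, hη0, hηF⟩ := key f hf (deriv f 0) hwT ε hε0
      have hw : D.F (f 0) (deriv f 0) = e * (1 + δ) ^ k * a := by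
        rw [hf0, hf1, D.homog _ (D.sub hp), Complex.norm_real, Real.norm_eq_abs,
          abs_of_nonneg (by positivity)]
      have hA : D.F (f 0) (deriv f 0) + ε ≤ c * B := by
        have h1 : c * B = lam * a + 1 := by rw [hB]; field_simp
        have h2 : e * (1 + δ) ^ k * a ≤ lam * a := mul_le_mul_of_nonneg_right (hbound k hk') ha0
        rw [h1, hw]
        linarith
      obtain ⟨f₁, hf₁, hf₁0, hf₁1, hf₁L⟩ := D.step P hc hlow hunif hf hfK hf0 hfL hη hηT hη0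
        hηF hA hδ0 hδδ₀
      refine ⟨f₁, hf₁, hf₁0, ?_, fun z hz => ?_⟩
      · rw [hf₁1, hf1, smul_smul]
        congr 1
        push_cast
        ring
      · obtain ⟨L, hL, hR⟩ := hf₁L z hz
        refine ⟨L, hL.trans (le_of_eq ?_), hR⟩
        rw [hw]
        push_cast
        ring
  obtain ⟨f, hf, hf0, hf1, -⟩ := hclaim n le_rfl
  exact ⟨f, hf, hf0, by rw [hf1, hepow]⟩

end Pool.Agent.H50.KB
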